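import Pool.Agent.Lib.MP_0775d3_lc.Ge.Final

/-! Let `G ≅ D × P₁ × ... × P_r` be a group of order `n`: `D` has a series of normal subgroups whose
factors are abelian or of order at most `n ^ h`, and every `P_i` is of wreath type, of `SL₂` type or of
linear type with `m ≥ m₀`. Let `f` be a class function on `G` with real or complex values. Then the
matrix `(f (x y⁻¹))` has rank at most `n ^ (1 - γ)` up to `n ^ δ` changes in each row and each column. -/

namespace Pool.Agent.Results.MP_0775d3_lc.ClassFunctions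

open MP0775d3.Kron MP0775d3.Sl2 MP0775d3.Ge

theorem result (δ : ℝ) (hδ : 0 < δ) : ∃ h : ℝ, 0 < h ∧ ∃ m₀ : ℕ, ∃ γ : ℝ, 0 < γ ∧ ∃ n₀ : ℕ,
    ∀ (G : Type) [Group G] [Fintype G], n₀ ≤ Fintype.card G →
    InCls ((Fintype.card G : ℝ) ^ h) m₀ G →
    ∀ (F : Type) [RCLike F] (f : G → F), IsClassFun f →
      Dec (groupMat f) ((Fintype.card G : ℝ) ^ (1 - γ)) ((Fintype.card G : ℝ) ^ δ) :=
  main4 δ hδ

end Pool.Agent.Results.MP_0775d3_lc.ClassFunctions
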